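import Mathlib

set_option autoImplicit false

namespace Pool.Agent.Results.MP_b004e2_gt.No

/-- the group of self-homeomorphisms of `M` leaving `f` invariant -/
def G {M : Type} [TopologicalSpace M] (f : C(M, ℝ)) : Subgroup (M ≃ₜ M) where
  carrier := {T | ∀ p, f (T p) = f p}
  one_mem' := fun _ => rfl
  mul_mem' := fun {S T} hS hT p => (hS (T p)).trans (hT p)
  inv_mem' := fun {T} hT p => by
    have := hT (T.symm p)
    rw [Homeomorph.apply_symm_apply] at this
    exact this.symm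

lemma side (g : ℝ → ℝ ⊕ ℝ) (hg : Continuous g) :
    (∀ x, ∃ y, g x = .inl y) ∨ (∀ x, ∃ y, g x = .inr y) := by
  rcases isClopen_iff.1 (isClopen_range_inl.preimage hg) with h | h
  · refine Or.inr fun x => ?_
    rcases e : g x with y | y
    · exact (h.subset (show x ∈ g ⁻¹' Set.range Sum.inl from ⟨y, e.symm⟩)).elim
    · exact ⟨y, rfl⟩
  · refine Or.inl fun x => ?_
    obtain ⟨y, e⟩ := h.symm.subset (Set.mem_univ x)
    exact ⟨y, e.symm⟩

lemma key (f0 f1 : C(ℝ, ℝ)) (hi : Function.Injective f1) (hr : Set.range f0 ≠ Set.range f1)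
    (T : ℝ ⊕ ℝ ≃ₜ ℝ ⊕ ℝ) (hT : ∀ p, Sum.elim f0 f1 (T p) = Sum.elim f0 f1 p) :
    (∀ x, ∃ y, T (.inl x) = .inl y) ∧ ∀ x, T (.inr x) = .inr x := by
  have h1 := side (T ∘ Sum.inl) (T.continuous.comp continuous_inl)
  have h2 := side (T ∘ Sum.inr) (T.continuous.comp continuous_inr)
  simp only [Function.comp] at h1 h2
  rcases h1 with h1 | h1 <;> rcases h2 with h2 | h2
  · obtain ⟨x | x, e⟩ := T.surjective (.inr 0)
    · obtain ⟨y, e'⟩ := h1 x; rw [e'] at e; cases e
    · obtain ⟨y, e'⟩ := h2 x; rw [e'] at e; cases e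
  · refine ⟨h1, fun x => ?_⟩
    obtain ⟨y, e⟩ := h2 x
    have := hT (.inr x)
    rw [e] at this ⊢
    exact congrArg _ (hi this)
  · refine (hr (Set.Subset.antisymm ?_ ?_)).elim
    · rintro _ ⟨x, rfl⟩
      obtain ⟨y, e⟩ := h1 x
      have := hT (.inl x)
      rw [e] at this
      exact ⟨y, this⟩
    · rintro _ ⟨x, rfl⟩
      obtain ⟨y, e⟩ := h2 x
      have := hT (.inr x)
      rw [e] at this
      exact ⟨y, this⟩
  · obtain ⟨x | x, e⟩ := T.surjective (.inl 0)
    · obtain ⟨y, e'⟩ := h1 x; rw [e'] at e; cases e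
    · obtain ⟨y, e'⟩ := h2 x; rw [e'] at e; cases e

lemma main (f0 f1 : C(ℝ, ℝ)) (hi : Function.Injective f1) (hr : Set.range f0 ≠ Set.range f1) :
    ∃ f : C(ℝ ⊕ ℝ, ℝ), Nonempty (G f0 ≃* G f) := by
  let f : C(ℝ ⊕ ℝ, ℝ) := ⟨Sum.elim f0 f1, f0.continuous.sumElim f1.continuous⟩
  let φ : G f0 →* G f :=
    { toFun := fun T => ⟨T.1.sumCongr (Homeomorph.refl ℝ), by
        rintro (x | x)
        · exact T.2 x
        · rfl⟩
      map_one' := by ext (x | x) <;> rfl
      map_mul' := fun S T => by ext (x | x) <;> rfl }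
  refine ⟨f, ⟨MulEquiv.ofBijective φ ⟨fun S T e => ?_, fun T => ?_⟩⟩⟩
  · ext x
    exact Sum.inl.inj (congrArg (fun U : G f => U.1 (.inl x)) e)
  · obtain ⟨h1, h2⟩ := key f0 f1 hi hr T.1 T.2
    obtain ⟨k1, -⟩ := key f0 f1 hi hr T.1.symm (T⁻¹).2
    let r : ℝ ⊕ ℝ → ℝ := Sum.elim id id
    have hr : Continuous r := continuous_id.sumElim continuous_id
    have e1 : ∀ x, Sum.inl (r (T.1 (.inl x))) = T.1 (.inl x) := fun x => by
      obtain ⟨y, e⟩ := h1 x; rw [e]; rfl
    have e2 : ∀ x, Sum.inl (r (T.1.symm (.inl x))) = T.1.symm (.inl x) := fun x => by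
      obtain ⟨y, e⟩ := k1 x; rw [e]; rfl
    let S : ℝ ≃ₜ ℝ :=
      { toFun := fun x => r (T.1 (.inl x))
        invFun := fun x => r (T.1.symm (.inl x))
        left_inv := fun x => by simp only [e1, Homeomorph.symm_apply_apply]; rfl
        right_inv := fun x => by simp only [e2, Homeomorph.apply_symm_apply]; rfl
        continuous_toFun := hr.comp (T.1.continuous.comp continuous_inl)
        continuous_invFun := hr.comp (T.1.symm.continuous.comp continuous_inl) }
    refine ⟨⟨S, fun x => ?_⟩, ?_⟩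
    · have := T.2 (.inl x)
      rw [← e1] at this
      exact this
    · ext (x | x)
      · exact e1 x
      · exact (h2 x).symm

theorem result : ∃ (M N : Type) (_ : TopologicalSpace M) (_ : TopologicalSpace N),
    T2Space M ∧ SecondCountableTopology M ∧ Nonempty (ChartedSpace ℝ M) ∧
    T2Space N ∧ SecondCountableTopology N ∧ Nonempty (ChartedSpace ℝ N) ∧
    Nonempty M ∧ IsEmpty (M ≃ₜ N) ∧
    ∀ f0 : C(M, ℝ), ∃ f : C(N, ℝ), Nonempty (G f0 ≃* G f) := by
  refine ⟨ℝ, ℝ ⊕ ℝ, inferInstance, inferInstance, inferInstance, inferInstance, ⟨inferInstance⟩,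
    inferInstance, inferInstance, ⟨inferInstance⟩, inferInstance, ⟨fun T => ?_⟩, fun f0 => ?_⟩
  · rcases side T T.continuous with h | h
    · obtain ⟨x, e⟩ := T.surjective (.inr 0)
      obtain ⟨y, e'⟩ := h x; rw [e'] at e; cases e
    · obtain ⟨x, e⟩ := T.surjective (.inl 0)
      obtain ⟨y, e'⟩ := h x; rw [e'] at e; cases e
  · by_cases h : Set.range f0 = Set.univ
    · refine main f0 ⟨Real.exp, Real.continuous_exp⟩ Real.exp_injective fun e => ?_
      obtain ⟨x, hx⟩ := (h.symm.trans e).subset (Set.mem_univ 0)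
      exact Real.exp_ne_zero x hx
    · exact main f0 (ContinuousMap.id ℝ) Function.injective_id fun e => h (e.trans Set.range_id)

end Pool.Agent.Results.MP_b004e2_gt.No
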